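import Pool.Agent.ZRT.StmtsA

/-!
# ZRT: row XUP (Rauch upper bound for the exponential map)
-/

noncomputable section

open scoped ContDiff Topology RealInnerProductSpace
open Set

namespace Pool.Agent.ZRT.H87

open Pool.Agent.RF Pool.Agent.MVS Pool.Agent.ZRT

/-- Cauchy-Schwarz for a positive symmetric form -/
theorem xup_cs {V : Type*} [NormedAddCommGroup V] [NormedSpace ℝ V] (B : Bil V)
    (hs : ∀ v w, B v w = B w v) (hp : ∀ v, v ≠ 0 → 0 < B v v) (v w : V) :
    B v w ^ 2 ≤ B w w * B v v := by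
  by_cases hw : w = 0
  · subst hw
    simp
  · have hww := hp w hw
    have hnn : 0 ≤ B (B w w • v - B v w • w) (B w w • v - B v w • w) := by
      by_cases hu : B w w • v - B v w • w = 0
      · rw [hu]; simp
      · exact (hp _ hu).le
    simp only [map_sub, map_smul, ContinuousLinearMap.sub_apply, ContinuousLinearMap.smul_apply,
      smul_eq_mul] at hnn
    rw [hs w v] at hnn
    have h2 : 0 ≤ B w w * (B w w * B v v - B v w ^ 2) := by nlinarith [hnn]
    have h3 := nonneg_of_mul_nonneg_right h2 hww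
    linarith

theorem xup : Xb1Statement → XflStatement → XfbStatement → RnbStatement → CshStatement →
    XupStatement := by
  intro hXb1 hXfl hXfb hRnb hCsh G ex hG m hm v w hv t ht
  have hmem : ∀ s : ℝ, ex (m, s • v) ∈ Om (Fin 5) := fun s => hG.exp.mem m hm _
  have hsym : ∀ s : ℝ, ∀ a b, G (ex (m, s • v)) a b = G (ex (m, s • v)) b a := fun s a b =>
    hG.cyl.metric.symm _ (hmem s) a b
  have hpos : ∀ s : ℝ, ∀ a, a ≠ 0 → 0 < G (ex (m, s • v)) a a := fun s a ha =>
    hG.cyl.metric.pos _ (hmem s) a ha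
  have hnn : ∀ s : ℝ, ∀ a, 0 ≤ G (ex (m, s • v)) a a := by
    intro s a
    by_cases ha : a = 0
    · rw [ha]; simp
    · exact (hpos s a ha).le
  have hT : ∀ s : ℝ, G (ex (m, s • v)) (Tf ex m v s) (Tf ex m v s) = 1 := fun s => by
    rw [(hXb1 G ex hG.cyl hG.exp m hm).2.2.2.2.1 v s, hv]
  set α : ℝ → ℝ := fun s => G (ex (m, s • v)) (Jf ex m v w s) (Jf ex m v w s) with hα
  set β : ℝ → ℝ := fun s => G (ex (m, s • v)) (DJf G ex m v w s) (Jf ex m v w s) with hβ
  set δ : ℝ → ℝ := fun s => G (ex (m, s • v)) (DJf G ex m v w s) (DJf G ex m v w s) with hδ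
  set κ : ℝ → ℝ := fun s => G (ex (m, s • v))
    (riem G (ex (m, s • v)) (Tf ex m v s) (Jf ex m v w s) (Tf ex m v s)) (DJf G ex m v w s) with hκ
  have h1 : ∀ s, HasDerivAt α (2 * β s) s := by
    intro s
    have h := (hXfl G ex hG.cyl hG.exp m hm v w w s).1
    rw [hsym s (Jf ex m v w s) (DJf G ex m v w s), ← two_mul] at h
    exact h
  have h2 : ∀ s, HasDerivAt δ (2 * κ s) s := by
    intro s
    have h := (hXfl G ex hG.cyl hG.exp m hm v w w s).2.2
    rw [hsym s (DJf G ex m v w s) (riem G (ex (m, s • v)) (Tf ex m v s) (Jf ex m v w s)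
      (Tf ex m v s)), ← two_mul] at h
    exact h
  have h3 : ∀ s, 0 ≤ α s := fun s => hnn s _
  have h4 : ∀ s, 0 ≤ δ s := fun s => hnn s _
  have h5 : ∀ s, β s ^ 2 ≤ α s * δ s := fun s => xup_cs _ (hsym s) (hpos s) _ _
  have h6 : ∀ s, κ s ^ 2 ≤ α s * δ s := fun s =>
    hRnb G hG.cyl hG.sec hG.secge _ (hmem s) _ (hT s) _ _
  have hb := hXfb G ex hG.cyl hG.exp m hm v w w 0 1
  have h7 : α 0 = 0 := by
    simp only [hα]
    rw [hb.1]
    simp
  have h8 : δ 0 = G m w w := by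
    simp only [hδ]
    rw [hb.2.1, zero_smul, hG.exp.zero m hm]
  have h := hCsh α β δ κ h1 h2 h3 h4 h5 h6 h7 t ht
  rw [h8] at h
  exact h

end Pool.Agent.ZRT.H87
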